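import Pool.Agent.TH250.Z3.Stm

/-!
# Irrationality exponent of `ζ(3)`, second design: the sum of the double residues (R1)
-/

set_option autoImplicit false

open Polynomial Pool.Agent.H337R2 Filter Topology
open Pool.Agent.TH817.Z3 Pool.Agent.TH250.Z3

namespace Pool.Agent.TH81.Z3.R1L

theorem cc_TS (c : ℚ) (P : ℚ[X]) : PowerSeries.coeff 0 (TS c P) = P.eval c := by
  simp [TS, Polynomial.taylor_coeff_zero]

theorem cc_iv (a : ℚ) : PowerSeries.constantCoeff (iv a) = 1 / a := by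
  simp [iv]

theorem mF_two {n k : ℕ} (h1 : 4 * n < k) (h2 : k ≤ 8 * n) : mF n k = 2 := by
  unfold mF
  rw [if_pos h2, if_pos h1]

theorem mF_lo {n k : ℕ} (h1 : k ≤ 4 * n) : mF n k ≤ 1 := by
  unfold mF
  rw [if_neg (by omega : ¬ 4 * n < k)]
  split_ifs <;> omega

theorem mF_hi {n k : ℕ} (h1 : 8 * n < k) : mF n k ≤ 1 := by
  unfold mF
  rw [if_neg (by omega : ¬ k ≤ 8 * n)]
  split_ifs <;> omega

/-- a product of distances to the points below `k` -/
theorem abs_prod {a b k : ℕ} (h : b ≤ k) :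
    |∏ j ∈ Finset.Icc a b, (-(k : ℚ) + (j : ℚ))| = ∏ j ∈ Finset.Icc a b, ((k : ℚ) - j) := by
  rw [Finset.abs_prod]
  refine Finset.prod_congr rfl fun j hj => ?_
  have h1 : (j : ℚ) ≤ k := by
    exact_mod_cast (Finset.mem_Icc.1 hj).2.trans h
  rw [show -(k : ℚ) + (j : ℚ) = -((k : ℚ) - j) by ring, abs_neg, abs_of_nonneg (sub_nonneg.2 h1)]

theorem cF_nonneg (n : ℕ) : 0 ≤ cF n := by
  unfold cF
  positivity

theorem abs_eval_PF {n k : ℕ} (h : 4 * n < k) : |(PF n).eval (-(k : ℚ))| =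
    cF n * ((∏ j ∈ Finset.Icc (n / 2 + 1) (3 * n), ((k : ℚ) - j)) *
      ∏ j ∈ Finset.Icc (n + 1) (7 * n / 2), ((k : ℚ) - j)) := by
  unfold PF
  rw [eval_mul, eval_C, eval_mul, eval_prod, eval_prod, abs_mul, abs_mul,
    abs_of_nonneg (cF_nonneg n), ← abs_prod (a := n / 2 + 1) (b := 3 * n) (k := k) (by omega),
    ← abs_prod (a := n + 1) (b := 7 * n / 2) (k := k) (by omega)]
  simp only [eval_add, eval_X, eval_C]

theorem abs_pa {n k : ℕ} (h1 : 4 * n < k) (h2 : k ≤ 8 * n) (Q : ℚ[X]) :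
    |pa (sF n) (mF n) (PF n * Q) k 2| = RK n k * |Q.eval (-(k : ℚ))| := by
  unfold pa
  rw [mF_two h1 h2, if_pos le_rfl]
  unfold pfc
  rw [Nat.sub_self, PowerSeries.coeff_zero_eq_constantCoeff_apply, map_mul,
    ← PowerSeries.coeff_zero_eq_constantCoeff_apply, cc_TS, eval_mul]
  unfold VV
  rw [map_prod, abs_mul, abs_mul, abs_eval_PF h1, Finset.abs_prod]
  have e : ∏ m ∈ (sF n).erase k, |PowerSeries.constantCoeff (iv (-(k : ℚ) + (m : ℚ)) ^ mF n m)| =
      (∏ m ∈ (sF n).erase k, |(m : ℚ) - k| ^ mF n m)⁻¹ := by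
    rw [← Finset.prod_inv_distrib]
    refine Finset.prod_congr rfl fun m _ => ?_
    rw [map_pow, cc_iv, one_div, neg_add_eq_sub, abs_pow, abs_inv, inv_pow]
  rw [e]
  unfold RK
  rw [div_eq_mul_inv]
  ring

theorem pa_zero {n k : ℕ} (h : ¬ (4 * n < k ∧ k ≤ 8 * n)) (P : ℚ[X]) :
    pa (sF n) (mF n) P k 2 = 0 := by
  unfold pa
  rw [if_neg]
  have h1 : mF n k ≤ 1 := by
    rcases Nat.lt_or_ge (4 * n) k with h3 | h3
    · exact mF_hi (by omega)
    · exact mF_lo h3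
  omega

/-- the sum of the double residues -/
theorem main : StR1 := by
  intro n _ Q
  unfold rho
  have e : ∑ k ∈ sF n, pa (sF n) (mF n) (PF n * Q) k 2 =
      ∑ k ∈ Finset.Icc (4 * n + 1) (8 * n), pa (sF n) (mF n) (PF n * Q) k 2 := by
    symm
    apply Finset.sum_subset
    · intro k hk
      rw [Finset.mem_Icc] at hk ⊢
      omega
    · intro k _ hk2
      rw [Finset.mem_Icc] at hk2
      exact pa_zero (by omega) _
  rw [e]
  refine (Finset.abs_sum_le_sum_abs _ _).trans (le_of_eq (Finset.sum_congr rfl fun k hk => ?_))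
  rw [Finset.mem_Icc] at hk
  exact abs_pa (by omega) hk.2 Q

end Pool.Agent.TH81.Z3.R1L

namespace Pool.Agent.TH81.Z3

/-- R1 -/
theorem R1 : StR1 := R1L.main

end Pool.Agent.TH81.Z3
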